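import Pool.Agent.H857.MX.Master
import Pool.Graph.R_pool_sql_team_seeded_2aa45f1a.Q64.P.Thms

/-!
# MP_4960c7_ag: rational and numerical equivalence on `A × Z`, for arbitrary smooth projective
varieties `Z` and all abelian varieties `A` but a set of isogeny classes of the exact order of
magnitude of its size

Let `g i` (`i` in a finite set `I`) be positive integers. For a prime power `q = p ^ a` let
`families g p a` be the finite set of the families `f i` of Weil polynomials of degrees `2 g i`
relative to `q` with integral Newton polygons. It contains the families of the characteristic
polynomials of the Frobenius endomorphisms of abelian varieties `A i` of dimensions `g i` over the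
field with `q` elements (Weil), which determine the `A i` up to isogeny (Tate). It has about `q ^
(∑ g i (g i + 1) / 4)` elements.

Let the `ρ k` be `r` Weil numbers of weights less than `c` with slopes in `(1 / D) ℤ`, for
instance the eigenvalues of Frobenius on the cohomology of a smooth projective variety over the
field with `q` elements. The family `f` is exceptional if there is a multiplicative relation
between roots of the `f i`, the numbers `ρ k` and `q`, up to roots of unity, which does not come
from the pairs of conjugate roots `z`, `q / z`.

1. The proportion of the exceptional families among all the families is of the exact order of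
magnitude `∑ q ^ (- δ (g i) / 2)`, where `δ (g) = g` for `g ≠ 2` and `δ (2) = 1`: it is at most
`C` times, and at least `1 / C` times this sum. The constant `C` depends only on the `g i`, on
`r`, `c` and `D` - not on `p`, `q` and the `ρ k`.

2. Let `f` be a family which is not exceptional, and let `A` be an abelian variety over the field
with `Q = q ^ s` elements, `s > 0`, which is isogenous to a product of powers of abelian varieties
`A i` with characteristic polynomials `f i`. Let `Z` be **any** smooth projective variety over the
field with `Q` elements such that

* the eigenvalues of Frobenius on the cohomology of `Z` lie, up to powers, in the group generated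
  by the `ρ k` and `q` (`Generated`);
* homologically trivial self-correspondences of degree zero of `A × Z` are nilpotent, for instance
  the motive of `Z` is finite-dimensional in the sense of Kimura and O'Sullivan. This is known for
  all varieties dominated by products of curves, and for their products with `A`.

The Kunneth formula holds for the Chow groups of `A × Z` (with rational coefficients, and products
of divisors on `A`), and **for every `n` the real intersection pairing `CH^n(A × Z)_ℝ × CH^(dim A
+ dim Z - n)(A × Z)_ℝ → ℝ` is perfect if and only if the pairings `CH^m(Z)_ℝ × CH^(dim Z - m)(Z)_ℝ
→ ℝ` with `n - dim A ≤ m ≤ n` are perfect** (`PerfectReduces`). In particular the pairings are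
perfect for `A`, and for all `A × Z` with `dim Z ≤ 2`. Moreover rational and numerical equivalence
coincide on the cycles of codimension `c` on `A × Z` if and only if they coincide on the cycles of
codimension `c - i` on `Z`, `0 ≤ i ≤ dim A`, and the same for rational and homological equivalence
(`RatNumReduces`).

What is used of `A` are known theorems (`IsAbelian`): the cohomology is generated by `H^1`,
Frobenius is diagonalizable on `H^1` (Weil), with eigenvalues `z ^ s`, `z` a root of some `f i`,
and the theorem of Tate on divisors. The framework (`TheoryData`, `IsChow`, `IsWeil`) is the one
of helper492 in the library: the Chow groups `C` with their pull-backs, push-forwards and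
products, and a Weil cohomology theory `H` with coefficients in an algebraically closed field `F`,
on a class `𝒱` of smooth proper varieties over `k`.

The framework and the geometric part (`Q64.P.perfectReduces`, `Q64.P.ratNumReduces`) are those of
the theorem `AllCMTypesTimes` of the library, which bounds the number of the exceptional slope
types of CM fields and asks that the eigenvalues of the other factor are unrelated to these
fields. In other theorems of the library the exceptional set of isogeny classes has a proportion
`O (q ^ (-1 / 6) log q)`, without a lower bound, for other factors with eigenvalues in a group of
small rank over a fixed number field. New here are the arbitrary eigenvalues, the uniformity in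
`p` and the exact order of magnitude of the exceptional set. The count is that of MP_557161_ag:
the slopes bound the exponents of the relations, up to proportionality, and each relation is a
nontrivial algebraic equation for the coefficients on almost all pencils of Weil polynomials, by
the expansions of the roots at infinity.
-/

set_option autoImplicit false

namespace Pool.Agent.Results.MP_4960c7_ag.SharpExceptionalSet

open Pool.Agent.H857.SX Pool.Agent.Q64.P

/-- **The exceptional set.** -/
theorem result {I : Type} [Fintype I] (g : I → ℕ) (hg : ∀ i, 0 < g i) (r D c : ℕ) (hD : 0 < D) :
    ∃ C : ℝ, 0 < C ∧ ∀ (p : ℕ) [Fact p.Prime] (a : ℕ), 0 < a →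
      ((families g p a).Finite ∧
        ∏ i, Real.sqrt ((p : ℝ) ^ a) ^ (g i * (g i + 1) / 2) ≤ C * (families g p a).ncard ∧
        (families g p a).ncard ≤ C * ∏ i, Real.sqrt ((p : ℝ) ^ a) ^ (g i * (g i + 1) / 2)) ∧
      ∀ (w : Fin r → ℕ) (ρ : Fin r → ℂ), (∀ k, w k < c ∧ IsWeilNumber p a D (w k) (ρ k)) →
        (({f ∈ families g p a | ¬ Independent f (p ^ a) ρ}.ncard : ℝ) ≤
            C * (rate g ((p : ℝ) ^ a) * (families g p a).ncard) ∧
          rate g ((p : ℝ) ^ a) * (families g p a).ncard ≤
            C * {f ∈ families g p a | ¬ Independent f (p ^ a) ρ}.ncard) ∧
        ∀ f ∈ families g p a, Independent f (p ^ a) ρ →
          PerfectReduces (RootsIn (Generated (p ^ a) ρ)) (p ^ a) f ∧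
            RatNumReduces (RootsIn (Generated (p ^ a) ρ)) (p ^ a) f :=
  Pool.Agent.H857.MX.master g hg r D c hD (fun q f R => PerfectReduces (RootsIn R) q f ∧
      RatNumReduces (RootsIn R) q f)
    fun _ _ _ hq _ h0 hR => ⟨perfectReduces hq hR, ratNumReduces hq hR⟩

end Pool.Agent.Results.MP_4960c7_ag.SharpExceptionalSet
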