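import Pool.Agent.H836.TateMain

/-!
# Numerically trivial cycles over a finite field and the defect of the Tate conjecture

Let `X` be a variety of dimension `d` over a finite field with a finite-dimensional motive in the
sense of Kimura, for example an abelian variety or a product of curves. Let `m_i` be the order of
the pole of the zeta function of `X` at `s = i`, and let `ρ_i` be the rank of the group of cycles of
codimension `i` modulo numerical equivalence. Then `ρ_i ≤ m_i`, and the strong Tate conjecture says
that `ρ_i = m_i`. It is known (Geisser, Kahn) that in this case numerically trivial cycles in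
`CH^i(X)` (with rational coefficients) are zero. We show that, without the Tate conjecture, its
defect `δ_i = m_i - ρ_i` is a bound for the numerically trivial cycles:

**Theorem.** Let `a_1, …, a_k` (`k ≥ 1`) be numerically trivial cycles in `CH^i(X)`.
* If `k > δ_i` then `a_1 ∧ ⋯ ∧ a_k = 0` in `CH(X^k)`.
* If `b_1, …, b_l` (`l ≥ 1`) are numerically trivial cycles in `CH^(d - i)(X)` and `k + l > δ_i` then
  `(a_1 ∧ ⋯ ∧ a_k) × (b_1 ∧ ⋯ ∧ b_l) = 0` in `CH(X^(k + l))`.

So in the middle dimension `d = 2 i` we have `(a_1 ∧ ⋯ ∧ a_k)^{× 2} = 0` if `k > δ_i / 2`. If the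
defect is one, then `a ∧ a' = 0` and `a × b = 0` for all numerically trivial cycles `a, a'` in
`CH^i(X)` and `b` in `CH^(d - i)(X)`.

The idea: by the exact Cayley–Hamilton theorem for the correspondences of `X` (proved here), there is
a polynomial in the Frobenius which is a projector `e` to the part of the motive of `X` with the
eigenvalue `q^i`; this is a motive of dimension `m_i` which contains all cycles of codimension `i`,
and its dual contains those of codimension `d - i`. The algebraic classes are split off, and the
rest is an evenly finite-dimensional motive of dimension `δ_i`. So the determinants of size `δ_i + 1`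
of the classes `(x_i, y_j)^* e` vanish. Numerically trivial cycles can be inserted in place of the
points `x_i` and `y_j`, and since they are isotropic, one gets a block matrix with a zero block.
-/

open CategoryTheory CategoryTheory.Limits AlgebraicGeometry
open Pool.Agent.H914 Pool.Agent.H914.VarClass Pool.Agent.H914.VarClass.Obj
open Pool.Agent.R903 Pool.Agent.H836.Tate

universe u v w

namespace Pool.Agent.Results.MP_4960c7_ag.TateDefect

/-- Let `X` be Kimura finite-dimensional over the finite field `k` with `q` elements, with the
Frobenius endomorphism `F`, and `i + i' = dim X`. Let `r` be at most the rank of `CH^i(X)` modulo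
numerical equivalence, and let `a_0, …, a_m` be numerically trivial cycles in `CH^i(X)`. If the
order of the pole of the zeta function at `s = i` is less than `r + (m + 1)` then
`a_0 ∧ ⋯ ∧ a_m = 0`. If it is less than `r + (m + 1) + (n + 1)` then
`(a_0 ∧ ⋯ ∧ a_m) × (b_0 ∧ ⋯ ∧ b_n) = 0` for all numerically trivial cycles `b_0, …, b_n` in
`CH^i'(X)`. -/
theorem result {k : Type u} [Field k] [Finite k] {𝒱 : VarClass k} {C : ChowTheory.{u, v} 𝒱}
    (hP : C.Polarized) (W : WeilTheory.{u, v, w} C) {X : 𝒱.Obj}
    (hX : C.KimuraFinite (C.diagC X)) {F : X ⟶ X} (hF : IsFrobenius W (Nat.card k) F) {i i' : ℕ}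
    (hi : i + i' = X.dim) {r : ℕ} (hr : NumRankGE C X i r) {m : ℕ} (a : Fin (m + 1) → C.CH X)
    (ha : AllNumTrivial C i a) :
    (poleOrder W (Nat.card k) F i < r + (m + 1) → wedge C a = 0) ∧
      ∀ (n : ℕ) (b : Fin (n + 1) → C.CH X), AllNumTrivial C i' b →
        poleOrder W (Nat.card k) F i < r + ((m + 1) + (n + 1)) →
          cross C (wedge C a) (wedge C b) = 0 :=
  Pool.Agent.H836.tateDefect hP W hX hF hi hr a ha

end Pool.Agent.Results.MP_4960c7_ag.TateDefect
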