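import Pool.Agent.H839.Kim.Reg

/-!
# Rational and numerical equivalence over finite fields: cokernels and zero divisors

Let `C = CHMot(k)` be the category of Chow motives with rational coefficients over a finite field `k`
with `q` elements, or a full rigid tensor subcategory closed under direct summands. We use only its
standard formal properties, collected in `FrobeniusCohomology`: `C` is a `ℚ`-linear rigid symmetric
monoidal category with `End(𝟙) = ℚ`, with the `ℓ`-adic cohomology groups, the Künneth formula, the
Frobenius endomorphisms, the Lefschetz trace formula, and Deligne's theorem on weights. A cycle class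
(in the Chow group of a smooth projective variety, of some codimension) is a morphism `f : 𝟙 ⟶ X`,
and it is numerically trivial if its composition with each `g : X ⟶ 𝟙` is zero. The exterior product
of cycle classes is `ext f h`, and `epow f n = f × ⋯ × f`.

1. A cycle class `f ≠ 0` which has a cokernel in `C` is not a zero divisor for the exterior product:
   if `f × h = 0` then `h = 0`. (No conjecture is used, and the base field is irrelevant here.) So a
   smash-nilpotent cycle class `f ≠ 0`, for instance an algebraically trivial one, has no cokernel.
2. If `f : 𝟙 ⟶ X`, `f ≠ 0`, has a cokernel then `1` is an eigenvalue of Frobenius on `H^0(X)` (for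
   a cycle class of codimension `n` on `Y`: `q^n` is an eigenvalue on `H^{2n}(Y)`), even if `f` is
   homologically trivial.
3. The conjecture of Beilinson, that numerically trivial cycle classes are zero, is equivalent to
   the following: numerically trivial cycle classes `f` have cokernels, and each of them either is a
   zero divisor (there is *one* `h ≠ 0`, on some variety, with `f × h = 0`), or `1` is not an
   eigenvalue of Frobenius on `H^0(X)`.
4. In particular it is equivalent to the conjecture of Voevodsky that numerically trivial cycle
   classes are smash-nilpotent, together with the existence of cokernels for these classes (which is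
   a small part of the conjecture that `C` is abelian).

The condition on the cokernels alone does not suffice: the formal properties also hold for the
representations of the additive group of dimension one (with the trivial Frobenius, and the
semisimplification, a functor to the representations of `SL_2`, as `H^0`), and this is an abelian
category with numerically trivial `f ≠ 0`.

The proof of 1: let `π : X ⟶ P` be the cokernel. The morphism `id_X ⊗ h` is zero on `f`, so it is
`π k`, and `k (π ⊗ id) = id_P ⊗ h`. Contracting `X` and sliding `π` around the loop we find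
`dim(X) h = dim(P) h`. In the same way `dim(X) f - f = dim(P) f`, so that `dim(X) - dim(P) = 1`.
-/

set_option autoImplicit false

open CategoryTheory MonoidalCategory Limits

universe v u w

namespace Pool.Agent.Results.MP_4960c7_ag.ZeroDivisors

open Pool.Agent.Q227.AB Pool.Agent.H839.Kim

/-- A cycle class is numerically trivial. -/
def NumZero {C : Type u} [Category.{v} C] [Preadditive C] [MonoidalCategory C] {X : C}
    (f : 𝟙_ C ⟶ X) : Prop :=
  ∀ g : X ⟶ 𝟙_ C, f ≫ g = 0

/-- **Cycle classes with cokernels are not zero divisors; rational and numerical equivalence over a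
finite field coincide if and only if numerically trivial cycle classes have cokernels and each of
them is a zero divisor (or lives on a motive without Frobenius eigenvalue one).** -/
theorem result {C : Type u} [Category.{v} C] [Preadditive C] [Linear ℚ C] [MonoidalCategory C]
    [SymmetricCategory C] [RightRigidCategory C] [MonoidalPreadditive C]
    [IsIdempotentComplete C] {K : Type w} [Field K] [CharZero K] [IsAlgClosed K] {q : ℕ}
    (hq : 1 < q) (R : FrobeniusCohomology C K q) :
    (∀ (X : C) (f : 𝟙_ C ⟶ X), f ≠ 0 → HasCokernel f →
      (∀ (N : C) (h : 𝟙_ C ⟶ N), ext f h = 0 → h = 0) ∧ (∀ n, epow f n ≠ 0) ∧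
        R.m 0 X 1 ≠ 0) ∧
    List.TFAE [
      ∀ (X : C) (f : 𝟙_ C ⟶ X), NumZero f → f = 0,
      ∀ (X : C) (f : 𝟙_ C ⟶ X), NumZero f → HasCokernel f ∧ ∃ n, epow f n = 0,
      ∀ (X : C) (f : 𝟙_ C ⟶ X), NumZero f → HasCokernel f ∧
        ((∃ (N : C) (h : 𝟙_ C ⟶ N), h ≠ 0 ∧ ext f h = 0) ∨ R.m 0 X 1 = 0)] := by
  have key : ∀ (X : C) (f : 𝟙_ C ⟶ X), f ≠ 0 → HasCokernel f →
      (∀ (N : C) (h : 𝟙_ C ⟶ N), ext f h = 0 → h = 0) ∧ (∀ n, epow f n ≠ 0) ∧
        R.m 0 X 1 ≠ 0 := by
    intro X f hf hc
    refine ⟨fun N h => eq_zero_of_ext_eq_zero R.end_unit f hf h, fun n hn => ?_,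
      m_ne_zero_of_cokernel R hq f hf⟩
    exact hf (eq_zero_of_epow_eq_zero R.unit_ne_zero R.end_unit f hn)
  refine ⟨key, ?_⟩
  tfae_have 1 → 2 := by
    intro h X f hf
    have h0 := h X f hf
    refine ⟨hasCokernel_zero' f h0, 1, ?_⟩
    change ext (𝟙 _) f = 0
    rw [h0, ← ext_comm, zero_ext, zero_comp]
  tfae_have 2 → 3 := by
    intro h X f hf
    obtain ⟨hc, n, hn⟩ := h X f hf
    refine ⟨hc, Or.inl ?_⟩
    have h0 := eq_zero_of_epow_eq_zero R.unit_ne_zero R.end_unit f hn
    refine ⟨𝟙_ C, 𝟙 _, R.unit_ne_zero, ?_⟩
    rw [h0, zero_ext]
  tfae_have 3 → 1 := by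
    intro h X f hf
    by_contra hne
    obtain ⟨hc, h1 | h1⟩ := h X f hf
    · obtain ⟨N, g, hg, hfg⟩ := h1
      exact hg ((key X f hne hc).1 N g hfg)
    · exact (key X f hne hc).2.2 h1
  tfae_finish

end Pool.Agent.Results.MP_4960c7_ag.ZeroDivisors
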